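import Pool.Agent.P.MP_61d55c_co.CR.A1

/-! The second perturbation: the pairs of vertices of the cube. -/

set_option autoImplicit false

namespace Pool.Agent.P.MP_61d55c_co.CR

open Matrix Filter Topology Finset

variable {n : ℕ}

lemma ev2 {A B : ℝ} (C : ℝ) (h : 0 < A ∨ (0 ≤ A ∧ 0 < B)) :
    ∀ᶠ β in 𝓝[>] (0 : ℝ), 0 < A + β ^ 2 * (B + β ^ 2 * C) := by
  rcases h with h | ⟨h, h'⟩
  · exact ev_cont (g := fun β => A + β ^ 2 * (B + β ^ 2 * C)) (by fun_prop) (by simpa using h)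
  · filter_upwards [ev_cont (g := fun β => B + β ^ 2 * C) (by fun_prop) (by simpa using h'),
      self_mem_nhdsWithin] with β h1 h2
    have h3 : 0 < β := h2
    positivity

/-- the second configuration -/
def P2 (P : I n → ℝ × (Fin n → ℝ)) (μ : X n → ℝ) (β : ℝ) : I n → ℝ × (Fin n → ℝ)
  | .inl x => (β * μ x, (1 - β ^ 2 * μ x ^ 2) • sg x.1)
  | .inr e => P (.inr e)

lemma str_cont {P : I n → ℝ × (Fin n → ℝ)} (μ : X n → ℝ) (hP : ∀ x, P (.inl x) = (0, sg x.1))
    {u v : I n} (h : Str P u v) : ∀ᶠ β in 𝓝[>] (0 : ℝ), Str (P2 P μ β) u v := by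
  obtain ⟨c, α, h1, h2⟩ := h
  have hc : ∀ z, Continuous fun β : ℝ => vl c α (P2 P μ β z) := by
    rintro (x | e)
    · simp only [P2, vl, dotProduct_smul, smul_eq_mul]; fun_prop
    · exact continuous_const (y := vl c α (P (.inr e)))
  have h0 : ∀ z, vl c α (P2 P μ 0 z) = vl c α (P z) := by
    rintro (x | e)
    · simp [P2, hP]
    · rfl
  have key : ∀ s t, vl c α (P s) < vl c α (P t) → ∀ᶠ β in 𝓝[>] (0 : ℝ),
      vl c α (P2 P μ β s) < vl c α (P2 P μ β t) := fun s t k =>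
    (ev_cont (g := fun β => vl c α (P2 P μ β t) - vl c α (P2 P μ β s)) ((hc t).sub (hc s))
      (by simpa only [h0, sub_pos] using k)).mono fun _ => sub_pos.1
  have e1 : ∀ᶠ β in 𝓝[>] (0 : ℝ), ∀ z, z ≠ u → vl c α (P2 P μ β z) < vl c α (P2 P μ β u) :=
    eventually_all.2 fun z => eventually_imp_distrib_left.2 fun hz => key _ _ (h1 z hz)
  have e2 : ∀ᶠ β in 𝓝[>] (0 : ℝ), ∀ z, z ≠ v → vl c α (P2 P μ β v) < vl c α (P2 P μ β z) :=
    eventually_all.2 fun z => eventually_imp_distrib_left.2 fun hz => key _ _ (h2 z hz)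
  filter_upwards [e1, e2] with β p q using ⟨_, α, p, q⟩

lemma sum_pos_at {x y : Fin n → Bool} (hxy : x ≠ y) {f : Fin n → ℝ} {m : ℝ}
    (h0 : ∀ k, 0 ≤ f k) (h1 : ∀ k, x k ≠ y k → m ≤ f k) : m ≤ ∑ k, f k := by
  obtain ⟨k, hk⟩ := Function.ne_iff.1 hxy
  exact (h1 k hk).trans (single_le_sum (fun k _ => h0 k) (mem_univ k))

lemma cube_top (x y w : Fin n → Bool) :
    (sg x - sg y) ⬝ᵥ sg w ≤ (sg x - sg y) ⬝ᵥ sg x ∧
      (sg x + sg y) ⬝ᵥ sg x - (sg x + sg y) ⬝ᵥ sg w ≤ 4 * n := by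
  constructor
  · refine sum_le_sum fun k _ => ?_
    simp only [Pi.sub_apply, sg]
    cases x k <;> cases y k <;> cases w k <;> norm_num [sn]
  · rw [dotProduct, dotProduct, ← sum_sub_distrib]
    refine (sum_le_sum (g := fun _ => (4 : ℝ)) fun k _ => ?_).trans (by simp [mul_comm])
    simp only [Pi.add_apply, sg]
    cases x k <;> cases y k <;> cases w k <;> norm_num [sn]

lemma cube_bot (x y : Fin n → Bool) {w : Fin n → Bool} (hw : w ≠ y) :
    4 ≤ (sg x - sg y) ⬝ᵥ sg w - (sg x - sg y) ⬝ᵥ sg y +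
      ((sg x + sg y) ⬝ᵥ sg y - (sg x + sg y) ⬝ᵥ sg w) := by
  simp only [dotProduct, ← sum_sub_distrib, ← sum_add_distrib]
  refine sum_pos_at hw (fun k => ?_) fun k => ?_ <;> simp only [Pi.add_apply, Pi.sub_apply, sg] <;>
    cases x k <;> cases y k <;> cases w k <;> norm_num [sn]

lemma cube_K {x y : Fin n → Bool} (hxy : x ≠ y) :
    2 ≤ (sg x - sg y) ⬝ᵥ sg x ∧ (sg x - sg y) ⬝ᵥ sg y = -((sg x - sg y) ⬝ᵥ sg x) := by
  constructor
  · refine sum_pos_at hxy (fun k => ?_) fun k => ?_ <;> simp only [Pi.sub_apply, sg] <;>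
      cases x k <;> cases y k <;> norm_num [sn]
  · simp only [dotProduct, ← sum_neg_distrib]
    refine sum_congr rfl fun k _ => ?_
    simp only [Pi.sub_apply, sg]
    cases x k <;> cases y k <;> norm_num [sn]

lemma cube_in {x y : Fin n → Bool} (hxy : x ≠ y) {v : Fin n → ℝ} (hv : ∀ k, |v k| < 1) :
    (sg x - sg y) ⬝ᵥ v < (sg x - sg y) ⬝ᵥ sg x := by
  obtain ⟨k, hk⟩ := Function.ne_iff.1 hxy
  refine sum_lt_sum (fun k _ => ?_) ⟨k, mem_univ _, ?_⟩
  all_goals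
    have := abs_lt.1 (hv k)
    simp only [Pi.sub_apply, sg]
  · cases x k <;> cases y k <;> norm_num [sn] <;> linarith
  · revert hk
    cases x k <;> cases y k <;> norm_num [sn] <;> linarith

lemma num_top {N s t g M : ℝ} (hN : 1 ≤ N) (hs : 0 < s) (ht : 0 < t)
    (h : 10 * N * t ≤ s ∨ 10 * N * s ≤ t) (hg : g * (10 * N) = s ^ 2) (hM : M ≤ 4 * N) :
    0 < 3 * s * (s - t) - (s ^ 2 - t ^ 2) - g * M := by
  have g0 : 0 < g := by
    by_contra k
    nlinarith [mul_nonneg (neg_nonneg.2 (not_lt.1 k)) (show 0 ≤ 10 * N by linarith), pow_pos hs 2]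
  have h1 : g * M ≤ g * (4 * N) := mul_le_mul_of_nonneg_left hM g0.le
  rcases h with h | h
  · have : 10 * t ≤ s := by nlinarith
    nlinarith [pow_pos hs 2, mul_nonneg hs.le (show 0 ≤ s - 10 * t by linarith), sq_nonneg t]
  · have : 10 * s ≤ t := by nlinarith
    nlinarith [pow_pos hs 2, mul_nonneg ht.le (show 0 ≤ t - 10 * s by linarith),
      mul_nonneg hs.le (show 0 ≤ t - 10 * s by linarith)]

lemma num_bot {N s u t g M : ℝ} (hN : 1 ≤ N) (hu : 0 < u) (ht : 0 < t)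
    (h : 10 * N * u ≤ s) (hg : g * (10 * N) = s ^ 2) (hM : 4 ≤ M) :
    0 < 3 * s * (t - u) + (t ^ 2 - u ^ 2) + g * M := by
  have h0 : 10 * u ≤ s := by nlinarith
  have hs : 0 < s := by linarith
  have h1 : s * u ≤ g := by
    refine le_of_mul_le_mul_right ?_ (show 0 < 10 * N by linarith)
    nlinarith [mul_le_mul_of_nonneg_left h hs.le]
  have h2 := mul_pos hs hu
  have h3 : g * 4 ≤ g * M := mul_le_mul_of_nonneg_left hM (by linarith)
  nlinarith [mul_pos hs ht, sq_nonneg t, mul_le_mul_of_nonneg_right h0 hu.le]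

lemma str_cube {P : I n → ℝ × (Fin n → ℝ)} {μ : X n → ℝ} (hn : 3 ≤ n)
    (hP : ∀ e k, |(P (.inr e)).2 k| < 1) (h0 : ∀ x, 0 < μ x)
    (hμ : ∀ x y, x ≠ y → 10 * n * μ x ≤ μ y ∨ 10 * n * μ y ≤ μ x) {x y : X n} (hxy : x ≠ y)
    (h : 10 * n * μ y ≤ μ x) : ∀ᶠ β in 𝓝[>] (0 : ℝ), Str (P2 P μ β) (.inl x) (.inl y) := by
  have hN : (1 : ℝ) ≤ n := by exact_mod_cast (by omega : 1 ≤ n)
  have hxy' : x.1 ≠ y.1 := fun e => hxy (Subtype.ext e)
  obtain ⟨g, hg⟩ : ∃ g : ℝ, g * (10 * n) = μ x ^ 2 := ⟨μ x ^ 2 / (10 * n), by field_simp⟩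
  obtain ⟨k1, k2⟩ := cube_K hxy'
  have t1 := cube_top x.1 y.1
  have t2 := fun w => (cube_top y.1 x.1 w).1
  have t3 := @cube_bot n x.1 y.1
  have t4 := fun e => cube_in hxy' (hP e)
  have t5 := fun e => cube_in hxy'.symm (hP e)
  simp only [← neg_sub (sg x.1) (sg y.1), neg_dotProduct] at t2 t5
  generalize sg x.1 - sg y.1 = α at *
  generalize sg x.1 + sg y.1 = m at *
  generalize hK : α ⬝ᵥ sg x.1 = K at *
  have K0 : 0 < K := by linarith
  have ev : ∀ (β : ℝ) (w : X n), vl (β * (K * (3 * μ x))) (α - (β ^ 2 * (K * g)) • m)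
      (P2 P μ β (.inl w)) = α ⬝ᵥ sg w.1 + β ^ 2 * ((K * (3 * μ x) * μ w - μ w ^ 2 * α ⬝ᵥ sg w.1 -
        K * g * m ⬝ᵥ sg w.1) + β ^ 2 * (μ w ^ 2 * (K * g * m ⬝ᵥ sg w.1))) := fun β w => by
    simp only [vl, P2, sub_dotProduct, smul_dotProduct, dotProduct_smul, smul_eq_mul]; ring
  have ee : ∀ (β : ℝ) e, vl (β * (K * (3 * μ x))) (α - (β ^ 2 * (K * g)) • m)
      (P2 P μ β (.inr e)) = α ⬝ᵥ (P (.inr e)).2 + β * (K * (3 * μ x)) * (P (.inr e)).1 -
        β ^ 2 * (K * g) * m ⬝ᵥ (P (.inr e)).2 := fun β e => by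
    simp only [vl, P2, sub_dotProduct, smul_dotProduct, smul_eq_mul]; ring
  have e1 : ∀ᶠ β in 𝓝[>] (0 : ℝ), ∀ z, z ≠ .inl x →
      vl (β * (K * (3 * μ x))) (α - (β ^ 2 * (K * g)) • m) (P2 P μ β z) <
      vl (β * (K * (3 * μ x))) (α - (β ^ 2 * (K * g)) • m) (P2 P μ β (.inl x)) := by
    refine eventually_all.2 fun z => eventually_imp_distrib_left.2 fun hz => ?_
    rcases z with w | e
    · have hw : w ≠ x := fun e => hz (by rw [e])
      simp only [ev, hK]
      filter_upwards [ev2 (A := K - α ⬝ᵥ sg w.1)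
        (B := (K * (3 * μ x) * μ x - μ x ^ 2 * K - K * g * m ⬝ᵥ sg x.1) -
          (K * (3 * μ x) * μ w - μ w ^ 2 * α ⬝ᵥ sg w.1 - K * g * m ⬝ᵥ sg w.1))
        (μ x ^ 2 * (K * g * m ⬝ᵥ sg x.1) - μ w ^ 2 * (K * g * m ⬝ᵥ sg w.1)) (by
          rcases (t1 w.1).1.lt_or_eq with k | k
          · exact .inl (by linarith)
          · refine .inr ⟨by linarith, ?_⟩
            have := mul_pos K0 (num_top hN (h0 x) (h0 w) (hμ w x hw) hg (t1 w.1).2)
            rw [k]; linarith)] with β hβ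
      linarith
    · simp only [ev, ee, hK]
      refine (ev_cont (g := fun β => _ - _) ?_ ?_).mono fun _ => sub_pos.1
      · fun_prop
      · simpa using t4 e
  have e2 : ∀ᶠ β in 𝓝[>] (0 : ℝ), ∀ z, z ≠ .inl y →
      vl (β * (K * (3 * μ x))) (α - (β ^ 2 * (K * g)) • m) (P2 P μ β (.inl y)) <
      vl (β * (K * (3 * μ x))) (α - (β ^ 2 * (K * g)) • m) (P2 P μ β z) := by
    refine eventually_all.2 fun z => eventually_imp_distrib_left.2 fun hz => ?_
    rcases z with w | e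
    · have hw : w.1 ≠ y.1 := fun e => hz (by rw [Subtype.ext e])
      simp only [ev, k2]
      filter_upwards [ev2 (A := α ⬝ᵥ sg w.1 + K)
        (B := (K * (3 * μ x) * μ w - μ w ^ 2 * α ⬝ᵥ sg w.1 - K * g * m ⬝ᵥ sg w.1) -
          (K * (3 * μ x) * μ y - μ y ^ 2 * (-K) - K * g * m ⬝ᵥ sg y.1))
        (μ w ^ 2 * (K * g * m ⬝ᵥ sg w.1) - μ y ^ 2 * (K * g * m ⬝ᵥ sg y.1)) (by
          have k3 : -K ≤ α ⬝ᵥ sg w.1 := by linarith [t2 w.1]
          rcases k3.lt_or_eq with k | k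
          · exact .inl (by linarith)
          · refine .inr ⟨by linarith, ?_⟩
            have := mul_pos K0 (num_bot (M := m ⬝ᵥ sg y.1 - m ⬝ᵥ sg w.1) hN (h0 y) (h0 w) h hg
              (by linarith [t3 hw]))
            rw [← k]; linarith)] with β hβ
      linarith
    · simp only [ev, ee, k2]
      refine (ev_cont (g := fun β => _ - _) ?_ ?_).mono fun _ => sub_pos.1
      · fun_prop
      · have := t5 e
        simp only [zero_mul, ne_eq, OfNat.ofNat_ne_zero, not_false_eq_true, zero_pow, add_zero,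
          sub_zero]
        linarith
  filter_upwards [e1, e2] with β p q using ⟨_, _, p, q⟩

lemma exists_dat (hn : 3 ≤ n) : ∃ (a : ℝ) (r : Fin n → ℝ) (o : Fin n), Dat a r o := by
  obtain ⟨m, rfl⟩ : ∃ m, n = m + 3 := ⟨n - 3, by omega⟩
  have hm : ((m + 3 : ℕ) : ℝ) ≠ 0 := by positivity
  refine ⟨1 - 1 / (m + 3 : ℕ), Fin.cons 1 (Fin.cons (-1) 0), 2, hn, by field_simp, rfl,
    fun k => ?_, by simp [Fin.sum_univ_succ], by simp [dotProduct, Fin.sum_univ_succ]; norm_num,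
    fun w => ?_⟩
  · refine Fin.cases (by simp) (fun k => Fin.cases (by simp) (fun k => by simp) k) k
  · simp only [dotProduct, Fin.sum_univ_succ, Fin.cons_zero, Fin.cons_succ, Pi.zero_apply, zero_mul,
      sum_const_zero, sg]
    cases w 0 <;> cases w (Fin.succ 0) <;> norm_num [sn]

theorem big (n : ℕ) (hn : 3 ≤ n) : ∃ (J : Type) (_ : Fintype J) (Y : J → Fin (n + 1) → ℝ),
    Fintype.card J = 2 ^ n + 2 ∧
    (∀ x y, x ≠ y → ∃ u : Fin (n + 1) → ℝ,
      (∀ z, z ≠ x → u ⬝ᵥ Y z < u ⬝ᵥ Y x) ∧ ∀ z, z ≠ y → u ⬝ᵥ Y y < u ⬝ᵥ Y z) ∧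
    ∀ u : Fin (n + 1) → ℝ, (∀ x y, u ⬝ᵥ Y x = u ⬝ᵥ Y y) → u = 0 := by
  obtain ⟨a, r, o, h⟩ := exists_dat hn
  obtain ⟨P, p1, p2, p3, p4⟩ := stage1 h
  obtain ⟨g, hg⟩ := exists_injective_nat (X n)
  have hN : (3 : ℝ) ≤ n := by exact_mod_cast hn
  have hl : (1 : ℝ) ≤ 10 * n := by linarith
  let μ : X n → ℝ := fun x => (10 * n) ^ g x
  have h0 : ∀ x, 0 < μ x := fun x => by positivity
  have hlt : ∀ x y, g x < g y → 10 * n * μ x ≤ μ y := fun x y k => by
    rw [← pow_succ']; exact pow_le_pow_right₀ hl k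
  have hμ : ∀ x y, x ≠ y → 10 * n * μ x ≤ μ y ∨ 10 * n * μ y ≤ μ x := fun x y k =>
    (lt_or_gt_of_ne (hg.ne k)).imp (hlt x y) (hlt y x)
  have e1 : ∀ᶠ β in 𝓝[>] (0 : ℝ), ∀ u v, u ≠ v → Str (P2 P μ β) u v := by
    refine eventually_all.2 fun u => eventually_all.2 fun v =>
      eventually_imp_distrib_left.2 fun huv => ?_
    rcases u with x | e
    · rcases v with y | e
      · have hxy : x ≠ y := fun e => huv (by rw [e])
        rcases hμ x y hxy with k | k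
        · exact (str_cube hn p2 h0 hμ hxy.symm k).mono fun _ => Str.symm
        · exact str_cube hn p2 h0 hμ hxy k
      · exact str_cont μ p1 (p3 e _ huv).symm
    · exact str_cont μ p1 (p3 e _ huv.symm)
  have e2 : ∀ᶠ β in 𝓝[>] (0 : ℝ), ∀ x, 0 < 1 - β ^ 2 * μ x ^ 2 :=
    eventually_all.2 fun x => ev_cont (by fun_prop) (by simp)
  obtain ⟨β, q1, q2⟩ := (e1.and e2).exists
  have hd : ∀ (u : Fin (n + 1) → ℝ) (p : ℝ × (Fin n → ℝ)),
      u ⬝ᵥ Fin.cons p.1 p.2 = vl (u 0) (Fin.tail u) p := fun u p => by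
    simp [dotProduct, Fin.sum_univ_succ, vl, Fin.tail]
  refine ⟨I n, inferInstance, fun z => Fin.cons (P2 P μ β z).1 (P2 P μ β z).2, ?_, ?_, ?_⟩
  · have c1 : ({fun _ => true, fun _ => false} : Finset (Fin n → Bool)).card = 2 :=
      card_pair fun e => by simpa using congrFun e o
    have c2 : 2 ^ 1 ≤ 2 ^ n := Nat.pow_le_pow_right (by norm_num) (by omega)
    rw [Fintype.card_sum, Fintype.card_subtype_compl, Fintype.card_coe, c1]
    simp only [Fintype.card_pi, Fintype.card_bool, prod_const, card_univ, Fintype.card_fin,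
      Fintype.card_prod]
    omega
  · intro x y hxy
    obtain ⟨c, α, k1, k2⟩ := q1 x y hxy
    exact ⟨Fin.cons c α, by simpa only [hd, Fin.cons_zero, Fin.tail_cons] using k1,
      by simpa only [hd, Fin.cons_zero, Fin.tail_cons] using k2⟩
  · intro u hu
    simp only [hd] at hu
    have c0 : u 0 = 0 := by
      have := hu (.inr (false, true)) (.inr (false, false))
      simp only [P2, p4, vl, sn, if_true, Bool.false_eq_true, if_false] at this
      linarith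
    have c1 : ∀ x : X n, Fin.tail u ⬝ᵥ sg x.1 = 0 := fun x => by
      have := hu (.inl x) (.inl x.neg)
      simp only [P2, vl, c0, zero_mul, zero_add, dotProduct_smul, smul_eq_mul, sg_neg, smul_neg,
        dotProduct_neg] at this
      have k : (1 - β ^ 2 * μ x ^ 2 + (1 - β ^ 2 * μ x.neg ^ 2)) * Fin.tail u ⬝ᵥ sg x.1 = 0 := by
        linarith
      exact (mul_eq_zero.1 k).resolve_left (add_pos (q2 x) (q2 _)).ne'
    have c2 : ∀ k, 2 * Fin.tail u k = ∑ l, Fin.tail u l := fun k => by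
      have : Nontrivial (Fin n) := Fin.nontrivial_iff_two_le.2 (by omega)
      obtain ⟨l, hl⟩ := exists_ne k
      have := c1 ⟨fun l => decide (l = k), by
        simp only [mem_insert, mem_singleton, not_or]
        exact ⟨fun e => by simpa [hl] using congrFun e l, fun e => by simpa using congrFun e k⟩⟩
      have e : ∀ l, Fin.tail u l * sg (fun l => decide (l = k)) l =
          (if l = k then 2 * Fin.tail u l else 0) - Fin.tail u l := fun l => by
        by_cases e : l = k <;> simp [sg, sn, e]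
        ring
      simp only [dotProduct, e, sum_sub_distrib, sum_ite_eq', mem_univ, if_true] at this
      linarith
    have c3 : ∑ l, Fin.tail u l = 0 := by
      have : 2 * ∑ l, Fin.tail u l = n * ∑ l, Fin.tail u l := by
        rw [mul_sum]; simp [c2]
      have k : ((n : ℝ) - 2) * ∑ l, Fin.tail u l = 0 := by linarith
      exact (mul_eq_zero.1 k).resolve_left (by linarith)
    funext k
    refine Fin.cases c0 (fun k => ?_) k
    have := c2 k
    rw [c3] at this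
    exact (mul_eq_zero.1 this).resolve_left two_ne_zero

end Pool.Agent.P.MP_61d55c_co.CR
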