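import Mathlib

/-! A cube without two opposite vertices and four extra points: the pairs with an extra point. -/

set_option autoImplicit false

namespace Pool.Agent.P.MP_61d55c_co.CR

open Matrix Filter Topology Finset

variable {n : ℕ}

/-- the value of a functional at a point with a height -/
def vl (c : ℝ) (α : Fin n → ℝ) (p : ℝ × (Fin n → ℝ)) : ℝ := c * p.1 + α ⬝ᵥ p.2

/-- a strictly antipodal pair -/
def Str {I : Type} (P : I → ℝ × (Fin n → ℝ)) (x y : I) : Prop :=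
  ∃ c α, (∀ z, z ≠ x → vl c α (P z) < vl c α (P x)) ∧ ∀ z, z ≠ y → vl c α (P y) < vl c α (P z)

lemma Str.symm {I : Type} {P : I → ℝ × (Fin n → ℝ)} {x y : I} (h : Str P x y) : Str P y x := by
  obtain ⟨c, α, h1, h2⟩ := h
  have e : ∀ p, vl (-c) (-α) p = -vl c α p := fun p => by simp only [vl, neg_dotProduct]; ring
  exact ⟨-c, -α, fun z hz => by rw [e, e]; exact neg_lt_neg (h2 z hz),
    fun z hz => by rw [e, e]; exact neg_lt_neg (h1 z hz)⟩

lemma ev_cont {g : ℝ → ℝ} (hg : Continuous g) (h : 0 < g 0) : ∀ᶠ δ in 𝓝[>] (0 : ℝ), 0 < g δ :=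
  nhdsWithin_le_nhds ((hg.tendsto 0).eventually (lt_mem_nhds h))

lemma ev1 {A B : ℝ} (C : ℝ) (h : 0 < A ∨ (0 ≤ A ∧ 0 < B)) :
    ∀ᶠ δ in 𝓝[>] (0 : ℝ), 0 < A + δ * (B + δ * C) := by
  rcases h with h | ⟨h, h'⟩
  · exact ev_cont (g := fun δ => A + δ * (B + δ * C)) (by fun_prop) (by simpa using h)
  · filter_upwards [ev_cont (g := fun δ => B + δ * C) (by fun_prop) (by simpa using h'),
      self_mem_nhdsWithin] with δ h1 h2
    have h3 : 0 < δ := h2
    positivity

def sn (b : Bool) : ℝ := if b then 1 else -1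

def sg (x : Fin n → Bool) : Fin n → ℝ := fun k => sn (x k)

/-- the vertices of the cube that are kept -/
abbrev X (n : ℕ) : Type := {x : Fin n → Bool // x ∉ ({fun _ => true, fun _ => false} : Finset _)}

abbrev I (n : ℕ) : Type := X n ⊕ Bool × Bool

lemma X.ex (x : X n) (b : Bool) : ∃ k, x.1 k = b := by
  have h := x.2
  simp only [mem_insert, mem_singleton, not_or] at h
  by_contra hc
  push Not at hc
  cases b
  · exact h.1 (funext fun k => by simpa using hc k)
  · exact h.2 (funext fun k => by simpa using hc k)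

def X.neg (x : X n) : X n := ⟨fun k => !x.1 k, by
  simp only [mem_insert, mem_singleton, not_or]
  obtain ⟨i, hi⟩ := x.ex true
  obtain ⟨j, hj⟩ := x.ex false
  exact ⟨fun h => by simpa [hi] using congrFun h i, fun h => by simpa [hj] using congrFun h j⟩⟩

lemma sg_neg (x : X n) : sg x.neg.1 = -sg x.1 := funext fun k => by
  simp only [sg, X.neg, Pi.neg_apply]; cases x.1 k <;> simp [sn]

lemma dot_le {α : Fin n → ℝ} {y : Fin n → Bool} (h : ∀ k, 0 < α k * sg y k) (w : Fin n → Bool) :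
    α ⬝ᵥ sg w ≤ α ⬝ᵥ sg y ∧ (w ≠ y → α ⬝ᵥ sg w < α ⬝ᵥ sg y) := by
  have h1 : ∀ k, α k * sg w k ≤ α k * sg y k := fun k => by
    have := h k
    simp only [sg] at this ⊢
    revert this
    cases w k <;> cases y k <;> simp [sn] <;> intro _ <;> linarith
  refine ⟨sum_le_sum fun k _ => h1 k, fun hw => ?_⟩
  obtain ⟨k, hk⟩ := Function.ne_iff.1 hw
  refine sum_lt_sum (fun k _ => h1 k) ⟨k, mem_univ _, ?_⟩
  have := h k
  simp only [sg] at this ⊢
  revert this hk
  cases w k <;> cases y k <;> simp [sn]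

/-- the first configuration -/
noncomputable def P1 (a : ℝ) (r : Fin n → ℝ) (δ : ℝ) : I n → ℝ × (Fin n → ℝ)
  | .inl x => (0, sg x.1)
  | .inr (true, τ) => (sn τ + δ * (3 / 4 * sn τ), fun k => a + δ * (-2 + sn τ * r k))
  | .inr (false, τ) => (sn τ, fun _ => -a)

def V0 (a c : ℝ) (α : Fin n → ℝ) : I n → ℝ
  | .inl x => α ⬝ᵥ sg x.1
  | .inr (true, τ) => c * sn τ + a * ∑ k, α k
  | .inr (false, τ) => c * sn τ - a * ∑ k, α k

noncomputable def V1 (r : Fin n → ℝ) (c c' : ℝ) (α : Fin n → ℝ) : I n → ℝ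
  | .inl _ => 0
  | .inr (true, τ) => c' * sn τ + 3 / 4 * (c * sn τ) - 2 * ∑ k, α k + sn τ * α ⬝ᵥ r
  | .inr (false, τ) => c' * sn τ

noncomputable def V2 (c' : ℝ) : I n → ℝ
  | .inr (true, τ) => 3 / 4 * (c' * sn τ)
  | _ => 0

lemma vl_P1 (a : ℝ) (r : Fin n → ℝ) (δ c c' : ℝ) (α : Fin n → ℝ) (z : I n) :
    vl (c + δ * c') α (P1 a r δ z) = V0 a c α z + δ * (V1 r c c' α z + δ * V2 c' z) := by
  rcases z with x | ⟨_ | _, τ⟩
  · simp [vl, P1, V0, V1, V2]
  · simp only [vl, P1, V0, V1, V2, dotProduct, mul_neg, sum_neg_distrib, ← sum_mul]; ring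
  · have : ∑ k, α k * (a + δ * (-2 + sn τ * r k)) =
        a * ∑ k, α k + δ * (-2 * ∑ k, α k + sn τ * ∑ k, α k * r k) := by
      simp only [mul_sum, mul_add, ← sum_add_distrib]
      exact sum_congr rfl fun k _ => by ring
    simp only [vl, P1, V0, V1, V2, dotProduct, this]; ring

lemma pair {a : ℝ} {r : Fin n → ℝ} {x y : I n} (c c' : ℝ) (α : Fin n → ℝ)
    (h1 : ∀ z, z ≠ x → V0 a c α z < V0 a c α x ∨
      (V0 a c α z ≤ V0 a c α x ∧ V1 r c c' α z < V1 r c c' α x))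
    (h2 : ∀ z, z ≠ y → V0 a c α y < V0 a c α z ∨
      (V0 a c α y ≤ V0 a c α z ∧ V1 r c c' α y < V1 r c c' α z)) :
    ∀ᶠ δ in 𝓝[>] (0 : ℝ), Str (P1 a r δ) x y := by
  have key : ∀ u v : I n, V0 a c α u < V0 a c α v ∨
      (V0 a c α u ≤ V0 a c α v ∧ V1 r c c' α u < V1 r c c' α v) → ∀ᶠ δ in 𝓝[>] (0 : ℝ),
      vl (c + δ * c') α (P1 a r δ u) < vl (c + δ * c') α (P1 a r δ v) := fun u v h => by
    filter_upwards [ev1 (A := V0 a c α v - V0 a c α u) (B := V1 r c c' α v - V1 r c c' α u)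
      (V2 c' v - V2 c' u) (by simpa only [sub_pos, sub_nonneg] using h)] with δ hδ
    rw [vl_P1, vl_P1]; linarith
  have e1 : ∀ᶠ δ in 𝓝[>] (0 : ℝ), ∀ z, z ≠ x →
      vl (c + δ * c') α (P1 a r δ z) < vl (c + δ * c') α (P1 a r δ x) :=
    eventually_all.2 fun z => eventually_imp_distrib_left.2 fun hz => key _ _ (h1 z hz)
  have e2 : ∀ᶠ δ in 𝓝[>] (0 : ℝ), ∀ z, z ≠ y →
      vl (c + δ * c') α (P1 a r δ y) < vl (c + δ * c') α (P1 a r δ z) :=
    eventually_all.2 fun z => eventually_imp_distrib_left.2 fun hz => key _ _ (h2 z hz)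
  filter_upwards [e1, e2] with δ p q using ⟨_, α, p, q⟩

/-- the data of the construction -/
structure Dat (a : ℝ) (r : Fin n → ℝ) (o : Fin n) : Prop where
  n3 : 3 ≤ n
  ha : a * n = n - 1
  r0 : r o = 0
  r1 : ∀ k, |r k| ≤ 1
  rs : ∑ k, r k = 0
  rr : r ⬝ᵥ r = 2
  rw : ∀ w, |r ⬝ᵥ sg w| ≤ 2

lemma Dat.a01 {a : ℝ} {r : Fin n → ℝ} {o : Fin n} (h : Dat a r o) : 0 < a ∧ a < 1 := by
  have h1 : (3 : ℝ) ≤ n := by exact_mod_cast h.n3
  have h2 := h.ha
  constructor <;> nlinarith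

lemma sum_sg (w : Fin n → Bool) : |∑ k, sg w k| ≤ n := by
  refine (abs_sum_le_sum_abs _ _).trans (le_of_eq ?_)
  have : ∀ k, |sg w k| = 1 := fun k => by simp only [sg]; cases w k <;> simp [sn]
  simp [this]

lemma sg_sq (w : Fin n → Bool) (k : Fin n) : sg w k * sg w k = 1 := by
  simp only [sg]; cases w k <;> simp [sn]

lemma orth {a : ℝ} {r : Fin n → ℝ} {o : Fin n} (h : Dat a r o) (y : X n) {i j : Fin n}
    (hi : y.1 i = true) (hj : y.1 j = false) {A B : ℝ} (hA : 0 ≤ A) (hB : 0 ≤ B) :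
    ∃ α : Fin n → ℝ, α ⬝ᵥ sg y.1 = 1 / 100 + A + B ∧ |∑ k, α k - (A - B)| ≤ 1 / 100 ∧
      |α ⬝ᵥ r - (A * r i - B * r j)| ≤ 1 / 50 ∧
      (∀ w : X n, α ⬝ᵥ sg w.1 ≤ 1 / 100 + A + B ∧ (w ≠ y → α ⬝ᵥ sg w.1 < 1 / 100 + A + B)) ∧
      ∀ w : X n, -(1 / 100 + A + B) ≤ α ⬝ᵥ sg w.1 ∧
        (w ≠ y.neg → -(1 / 100 + A + B) < α ⬝ᵥ sg w.1) := by
  have h1 : (3 : ℝ) ≤ n := by exact_mod_cast h.n3
  have hη : (0 : ℝ) < 1 / (100 * n) := by positivity
  have hη' : 1 / (100 * (n : ℝ)) * n = 1 / 100 := by field_simp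
  generalize 1 / (100 * (n : ℝ)) = η at hη hη'
  have si : sg y.1 i = 1 := by simp [sg, sn, hi]
  have sj : sg y.1 j = -1 := by simp [sg, sn, hj]
  have e1 : (η • sg y.1 + Pi.single i A - Pi.single j B) ⬝ᵥ sg y.1 = 1 / 100 + A + B := by
    rw [sub_dotProduct, add_dotProduct, smul_dotProduct, single_dotProduct, single_dotProduct, si,
      sj, dotProduct]
    simp [sg_sq, hη']
  have hp : ∀ k, 0 < (η • sg y.1 + Pi.single i A - Pi.single j B : Fin n → ℝ) k * sg y.1 k := by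
    intro k
    have p1 : 0 ≤ (Pi.single i A : Fin n → ℝ) k * sg y.1 k := by
      by_cases e : k = i
      · subst e; simpa [si] using hA
      · simp [e]
    have p2 : (Pi.single j B : Fin n → ℝ) k * sg y.1 k ≤ 0 := by
      by_cases e : k = j
      · subst e; simpa [sj] using hB
      · simp [e]
    simp only [Pi.sub_apply, Pi.add_apply, Pi.smul_apply, smul_eq_mul, sub_mul, add_mul, mul_assoc,
      sg_sq]
    linarith
  refine ⟨η • sg y.1 + Pi.single i A - Pi.single j B, e1, ?_, ?_, fun w => ?_, fun w => ?_⟩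
  · simp only [Pi.sub_apply, Pi.add_apply, Pi.smul_apply, smul_eq_mul, sum_sub_distrib,
      sum_add_distrib, ← mul_sum, sum_pi_single', mem_univ, if_true]
    rw [show η * ∑ k, sg y.1 k + A - B - (A - B) = η * ∑ k, sg y.1 k by ring, abs_mul,
      abs_of_pos hη, ← hη']
    exact mul_le_mul_of_nonneg_left (sum_sg _) hη.le
  · rw [sub_dotProduct, add_dotProduct, smul_dotProduct, single_dotProduct, single_dotProduct,
      smul_eq_mul, show η * sg y.1 ⬝ᵥ r + A * r i - B * r j - (A * r i - B * r j) =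
        η * sg y.1 ⬝ᵥ r by ring, abs_mul, abs_of_pos hη, dotProduct_comm]
    have := mul_le_mul_of_nonneg_left (h.rw y.1) hη.le
    nlinarith
  · rw [← e1]
    exact ⟨(dot_le hp w.1).1, fun hw => (dot_le hp w.1).2 fun e => hw (Subtype.ext e)⟩
  · have := dot_le hp w.neg.1
    rw [sg_neg, dotProduct_neg, e1] at this
    refine ⟨by linarith [this.1], fun hw => ?_⟩
    have := this.2 fun e => hw (Subtype.ext (funext fun k => by
      have := congrFun e k
      simp only [X.neg] at this ⊢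
      rw [← this, Bool.not_not]))
    linarith

lemma neg_neg' (x : X n) : x.neg.neg = x := Subtype.ext (funext fun k => by simp [X.neg])

section types
variable {a : ℝ} {r : Fin n → ℝ} {o : Fin n} (h : Dat a r o)
include h

lemma type1 (x : X n) (τ : Bool) :
    ∀ᶠ δ in 𝓝[>] (0 : ℝ), Str (P1 a r δ) (.inr (true, τ)) (.inl x) := by
  obtain ⟨i, j, hi, hj, hr⟩ : ∃ i j, x.neg.1 i = true ∧ x.neg.1 j = false ∧ (r i = 0 ∨ r j = 0) := by
    obtain ⟨i, hi⟩ := x.neg.ex true
    obtain ⟨j, hj⟩ := x.neg.ex false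
    cases e : x.neg.1 o
    exacts [⟨i, o, hi, e, .inr h.r0⟩, ⟨o, j, e, hj, .inl h.r0⟩]
  obtain ⟨α, e1, e2, e3, e4, e5⟩ := orth h x.neg hi hj (A := 11 / 10) (B := 1) (by norm_num)
    (by norm_num)
  rw [sg_neg, dotProduct_neg] at e1
  rw [neg_neg'] at e5
  obtain ⟨a0, a1⟩ := h.a01
  have r1 := abs_le.1 (h.r1 i)
  have r2 := abs_le.1 (h.r1 j)
  rw [abs_le] at e2 e3
  have e6 : -(28 / 25) ≤ α ⬝ᵥ r ∧ α ⬝ᵥ r ≤ 28 / 25 := by
    rcases hr with k | k <;> rw [k] at e3 <;> constructor <;> linarith [e3.1, e3.2]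
  have t0 : 0 < a * ∑ k, α k := mul_pos a0 (by linarith)
  have t1 : a * ∑ k, α k ≤ ∑ k, α k := by nlinarith
  refine pair (sn τ * (211 / 100 - a * ∑ k, α k)) (-sn τ / 20) α ?_ ?_
  · rintro (w | ⟨_ | _, _ | _⟩) hz <;> cases τ <;> simp only [V0, V1, sn, if_true, Bool.false_eq_true,
      if_false] <;> first
      | exact absurd rfl hz
      | (left; linarith)
      | (right; constructor <;> linarith [(e4 w).1])
  · rintro (w | ⟨_ | _, _ | _⟩) hz <;> cases τ <;> simp only [V0, V1, sn, if_true, Bool.false_eq_true,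
      if_false] <;> first
      | (left; linarith)
      | (left; linarith [(e5 w).2 fun e => hz (by rw [e])])
      | (right; constructor <;> linarith)

lemma type2 (x : X n) (τ : Bool) :
    ∀ᶠ δ in 𝓝[>] (0 : ℝ), Str (P1 a r δ) (.inl x) (.inr (false, τ)) := by
  obtain ⟨i, hi⟩ := x.ex true
  obtain ⟨j, hj⟩ := x.ex false
  obtain ⟨α, e1, e2, e3, e4, e5⟩ := orth h x hi hj (A := 1) (B := 0) (by norm_num) (by norm_num)
  obtain ⟨a0, a1⟩ := h.a01
  have r1 := abs_le.1 (h.r1 i)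
  rw [abs_le] at e2 e3
  have t0 : 0 < a * ∑ k, α k := mul_pos a0 (by linarith)
  have t1 : a * ∑ k, α k < ∑ k, α k := by nlinarith
  refine pair (-sn τ * (101 / 100 - a * ∑ k, α k)) (-sn τ / 20) α ?_ ?_
  · rintro (w | ⟨_ | _, _ | _⟩) hz <;> cases τ <;> simp only [V0, V1, sn, if_true, Bool.false_eq_true,
      if_false] <;> first
      | (left; linarith)
      | (left; linarith [(e4 w).2 fun e => hz (by rw [e])])
      | (right; constructor <;> linarith)
  · rintro (w | ⟨_ | _, _ | _⟩) hz <;> cases τ <;> simp only [V0, V1, sn, if_true, Bool.false_eq_true,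
      if_false] <;> first
      | exact absurd rfl hz
      | (left; linarith)
      | (right; constructor <;> linarith [(e5 w).1])

omit h in
lemma sum_X (w : X n) : |∑ k, sg w.1 k| ≤ n - 2 := by
  have key : ∀ w : X n, ∑ k, sg w.1 k ≤ n - 2 := fun w => by
    obtain ⟨j, hj⟩ := w.ex false
    have : ∑ k, sg w.1 k ≤ ∑ k, (1 - (Pi.single j 2 : Fin n → ℝ) k) := sum_le_sum fun k _ => by
      by_cases e : k = j
      · subst e; simp [sg, sn, hj]; norm_num
      · simp only [sg, sn, Pi.single_eq_of_ne e]; split_ifs <;> norm_num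
    simpa [sum_sub_distrib, sum_pi_single'] using this
  have := key w.neg
  simp only [sg_neg, Pi.neg_apply, sum_neg_distrib] at this
  exact abs_le.2 ⟨by linarith, key w⟩

lemma type3 (τ : Bool) :
    ∀ᶠ δ in 𝓝[>] (0 : ℝ), Str (P1 a r δ) (.inr (true, τ)) (.inr (false, τ)) := by
  have h1 : (3 : ℝ) ≤ n := by exact_mod_cast h.n3
  have e1 : ∑ k, (1 + sn τ / 4 * r k) = n := by simp [sum_add_distrib, ← mul_sum, h.rs]
  have e2 : ∀ v : Fin n → ℝ, (fun k => 1 + sn τ / 4 * r k) ⬝ᵥ v = ∑ k, v k + sn τ / 4 * r ⬝ᵥ v := by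
    intro v
    simp only [dotProduct, mul_sum, ← sum_add_distrib]
    exact sum_congr rfl fun k _ => by ring
  have e3 := h.ha
  refine pair 0 (-sn τ / 4) (fun k => 1 + sn τ / 4 * r k) ?_ ?_
  all_goals
    rintro (w | ⟨_ | _, _ | _⟩) hz <;> simp only [V0, V1, e1, e2, e3, h.rs, h.rr] <;> cases τ <;>
      simp only [sn, if_true, Bool.false_eq_true, if_false] <;> first
      | exact absurd rfl hz
      | (left; linarith)
      | (left; linarith [abs_le.1 (sum_X w), abs_le.1 (h.rw w.1)])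
      | (right; constructor <;> linarith)

omit h in
lemma type4 : ∀ᶠ δ in 𝓝[>] (0 : ℝ), Str (P1 a r δ) (.inr (true, true)) (.inr (true, false)) := by
  refine pair 1 0 0 ?_ ?_
  all_goals
    rintro (w | ⟨_ | _, _ | _⟩) hz <;> simp only [V0, V1, sn, if_true, Bool.false_eq_true, if_false,
      Pi.zero_apply, sum_const_zero, zero_dotProduct] <;> first
      | exact absurd rfl hz
      | (left; linarith)
      | (right; constructor <;> linarith)

lemma type5 : ∀ᶠ δ in 𝓝[>] (0 : ℝ), Str (P1 a r δ) (.inr (false, true)) (.inr (false, false)) := by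
  have e1 : ∑ k, ((-7 / 16 : ℝ) • r) k = 0 := by simp [← mul_sum, h.rs]
  refine pair 1 0 ((-7 / 16 : ℝ) • r) ?_ ?_
  all_goals
    rintro (w | ⟨_ | _, _ | _⟩) hz <;> simp only [V0, V1, sn, if_true, Bool.false_eq_true, if_false,
      e1, smul_dotProduct, smul_eq_mul, h.rr] <;> first
      | exact absurd rfl hz
      | (left; linarith)
      | (left; linarith [abs_le.1 (h.rw w.1)])
      | (right; constructor <;> linarith)

lemma type6 (τ : Bool) :
    ∀ᶠ δ in 𝓝[>] (0 : ℝ), Str (P1 a r δ) (.inr (true, τ)) (.inr (false, !τ)) := by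
  have h1 : (3 : ℝ) ≤ n := by exact_mod_cast h.n3
  have e1 : ∑ _k : Fin n, (1 : ℝ) = n := by simp
  have e2 : ∀ v : Fin n → ℝ, (fun _ => (1 : ℝ)) ⬝ᵥ v = ∑ k, v k := fun v => by simp [dotProduct]
  have e3 := h.ha
  refine pair (sn τ) 0 (fun _ => 1) ?_ ?_
  all_goals
    rintro (w | ⟨_ | _, _ | _⟩) hz <;> simp only [V0, V1, e1, e2, e3] <;> cases τ <;>
      simp only [sn, if_true, Bool.false_eq_true, if_false, Bool.not_true, Bool.not_false] <;> first
      | exact absurd rfl hz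
      | (left; linarith)
      | (left; linarith [abs_le.1 (sum_X w)])

theorem stage1 : ∃ P : I n → ℝ × (Fin n → ℝ), (∀ x, P (.inl x) = (0, sg x.1)) ∧
    (∀ e k, |(P (.inr e)).2 k| < 1) ∧ (∀ e z, z ≠ .inr e → Str P (.inr e) z) ∧
    ∀ τ, P (.inr (false, τ)) = (sn τ, fun _ => -a) := by
  obtain ⟨a0, a1⟩ := h.a01
  have e1 : ∀ᶠ δ in 𝓝[>] (0 : ℝ), ∀ e k, |(P1 a r δ (.inr e)).2 k| < 1 := by
    refine eventually_all.2 fun e => eventually_all.2 fun k => ?_
    rcases e with ⟨_ | _, τ⟩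
    · exact Eventually.of_forall fun δ => by simpa [P1, abs_of_pos a0] using a1
    · filter_upwards [ev_cont (g := fun δ => 1 - |a + δ * (-2 + sn τ * r k)|) (by fun_prop)
        (by simpa [abs_of_pos a0] using a1)] with δ hδ
      exact sub_pos.1 hδ
  have e2 : ∀ᶠ δ in 𝓝[>] (0 : ℝ), ∀ e z, z ≠ .inr e → Str (P1 a r δ) (.inr e) z := by
    refine eventually_all.2 fun e => eventually_all.2 fun z =>
      eventually_imp_distrib_left.2 fun hz => ?_
    rcases e with ⟨_ | _, τ⟩ <;> rcases z with x | ⟨_ | _, τ'⟩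
    · exact (type2 h x τ).mono fun _ => Str.symm
    · cases τ <;> cases τ'
      exacts [absurd rfl hz, (type5 h).mono fun _ => Str.symm, type5 h, absurd rfl hz]
    · cases τ <;> cases τ'
      exacts [(type3 h _).mono fun _ => Str.symm, (type6 h true).mono fun _ => Str.symm,
        (type6 h false).mono fun _ => Str.symm, (type3 h _).mono fun _ => Str.symm]
    · exact type1 h x τ
    · cases τ <;> cases τ'
      exacts [type3 h _, type6 h false, type6 h true, type3 h _]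
    · cases τ <;> cases τ'
      exacts [absurd rfl hz, type4.mono fun _ => Str.symm, type4, absurd rfl hz]
  obtain ⟨δ, p, q⟩ := (e1.and e2).exists
  exact ⟨P1 a r δ, fun _ => rfl, p, q, fun _ => rfl⟩

end types

end Pool.Agent.P.MP_61d55c_co.CR
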