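import Mathlib
import Pool.Agent.P.MP_61d55c_co.Main

/-! From one large 0-antipodal set to the value of `e0` in the complete range. -/

set_option autoImplicit false

namespace Pool.Agent.P.MP_61d55c_co.CR

open Matrix SimpleGraph Finset

theorem upper (d n : ℕ) : e0 d n ≤ n.choose 2 := by
  refine e0_le fun Q q1 q2 => ?_
  classical
  have := q1.finite.fintype
  rw [pairCount_eq, ← coe_edgeFinset, Set.ncard_coe_finset, ← q2, ← Nat.card_coe_set_eq,
    Nat.card_eq_fintype_card]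
  exact card_edgeFinset_le_card_choose_two

/-- A spanning family contains at most `d + 1` spanning members. -/
theorem small_span {d : ℕ} {I : Type} (Y : I → Fin d → ℝ) (x0 : I)
    (hs : ∀ u : Fin d → ℝ, (∀ x y, u ⬝ᵥ Y x = u ⬝ᵥ Y y) → u = 0) :
    ∃ J : Finset I, J.card ≤ d + 1 ∧
      ∀ u : Fin d → ℝ, (∀ x ∈ J, ∀ y ∈ J, u ⬝ᵥ Y x = u ⬝ᵥ Y y) → u = 0 := by
  classical
  obtain ⟨b, hb, h1, h2⟩ := exists_linearIndependent ℝ (Set.range fun x => Y x - Y x0)
  have hf : b.Finite := h2.finite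
  have := hf.fintype
  have hc : Fintype.card b ≤ d := by simpa using h2.fintype_card_le_finrank
  choose g hg using fun v : b => hb v.2
  refine ⟨insert x0 (univ.image g), (card_insert_le _ _).trans (Nat.succ_le_succ
    (card_image_le.trans (by simpa using hc))), fun u hu => hs u fun x y => ?_⟩
  have key : ∀ v ∈ Submodule.span ℝ b, u ⬝ᵥ v = 0 := fun v hv => by
    induction hv using Submodule.span_induction with
    | mem v hv =>
      have e : Y (g ⟨v, hv⟩) - Y x0 = v := hg ⟨v, hv⟩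
      rw [← e, dotProduct_sub, sub_eq_zero]
      exact hu _ (mem_insert_of_mem (mem_image_of_mem _ (mem_univ _))) _ (mem_insert_self _ _)
    | zero => simp
    | add v w _ _ p q => rw [dotProduct_add, p, q, add_zero]
    | smul c v _ p => rw [dotProduct_smul, p, smul_zero]
  have k : ∀ x, u ⬝ᵥ Y x = u ⬝ᵥ Y x0 := fun x => by
    rw [← sub_eq_zero, ← dotProduct_sub]
    exact key _ (h1 ▸ Submodule.subset_span ⟨x, rfl⟩)
  rw [k x, k y]

theorem range {d n : ℕ} {I : Type} [Fintype I] (Y : I → Fin d → ℝ) (hd : 1 ≤ d)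
    (hY : ∀ x y, x ≠ y → ∃ u : Fin d → ℝ,
      (∀ z, z ≠ x → u ⬝ᵥ Y z < u ⬝ᵥ Y x) ∧ ∀ z, z ≠ y → u ⬝ᵥ Y y < u ⬝ᵥ Y z)
    (hs : ∀ u : Fin d → ℝ, (∀ x y, u ⬝ᵥ Y x = u ⬝ᵥ Y y) → u = 0)
    (h1 : d + 1 ≤ n) (h2 : n ≤ Fintype.card I) : e0 d n = n.choose 2 := by
  classical
  refine le_antisymm (upper d n) ?_
  obtain ⟨x0⟩ : Nonempty I := Fintype.card_pos_iff.1 (by omega)
  obtain ⟨J0, c0, s0⟩ := small_span Y x0 hs
  obtain ⟨J, j1, -, j2⟩ := exists_subsuperset_card_eq (subset_univ J0) (c0.trans h1)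
    (by simpa using h2)
  have : NeZero n := ⟨by omega⟩
  have : Nontrivial (Fin n) := Fin.nontrivial_iff_two_le.2 (by omega)
  let e : Fin n ≃ J := (J.equivFinOfCardEq j2).symm
  have hi : ∀ {x y : Fin n}, x ≠ y → (e x : I) ≠ e y := fun h k => h (e.injective (Subtype.ext k))
  have := lower (⊤ : SimpleGraph (Fin n)) (fun x => Y (e x))
    (fun x => (exists_ne x).imp fun _ h => h.symm)
    (fun x y h => by
      obtain ⟨u, p, q⟩ := hY _ _ (hi h)
      exact ⟨u, fun z hz => p _ (hi hz), fun z hz => q _ (hi hz)⟩)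
    fun u hu => s0 u fun x hx y hy => by
      simpa using hu (e.symm ⟨x, j1 hx⟩) (e.symm ⟨y, j1 hy⟩)
  rwa [← coe_edgeFinset, Set.ncard_coe_finset, card_edgeFinset_top_eq_card_choose_two,
    Fintype.card_fin] at this

end Pool.Agent.P.MP_61d55c_co.CR
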